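import Mathlib
import Pool.Agent.Results.MP_ba1c1e_lc.No

set_option autoImplicit false

namespace Pool.Agent.Results.MP_2ea626_lc.Yes

open Set Filter Topology Function TopologicalSpace Pool.Agent.Results.MP_ba1c1e_lc.No
open Cardinal hiding univ

lemma tri : ∃ K : Type, #K ≤ 𝔠 ∧ ∀ f : Set K → ℕ → (X × X) × X, ∃ S₁ S₂ S₃ : Set K,
    f S₁ = f S₃ ∧ f S₂ = f S₃ ∧ S₁ ∩ S₂ ⊆ S₃ ∧ ¬ S₁ ⊆ S₃ ∧ ¬ S₂ ⊆ S₃ := by
  let μ : Cardinal.{0} := sInf {m | 𝔠 < 2 ^ m}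
  have m1 : 𝔠 < 2 ^ μ := csInf_mem (s := {m | 𝔠 < 2 ^ m}) ⟨𝔠, cantor _⟩
  have m2 : μ ≤ 𝔠 := csInf_le' (cantor _)
  have m3 : ∀ m < μ, 2 ^ m ≤ 𝔠 := fun m l => not_lt.1 fun k => l.not_ge (csInf_le' k)
  have m4 : ℵ₀ ≤ μ := not_lt.1 fun l => m1.not_ge (power_le_power_left two_ne_zero l.le)
  let W := μ.ord.ToType
  refine ⟨Σ a : W, Iic a → Bool, ?_, fun f => ?_⟩
  · rw [mk_sigma]
    refine (sum_le_sum _ (fun _ => 𝔠) fun a => ?_).trans ?_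
    · simpa using m3 _ (by simpa [W] using mk_Iic_lt a (by simp [W]) (by simpa [W] using m4))
    · simpa [W] using mul_le_of_le aleph0_le_continuum m2 le_rfl
  let S : (W → Bool) → Set (Σ a : W, Iic a → Bool) := fun b => range fun a => ⟨a, fun β => b β⟩
  have hS : ∀ (b b' : W → Bool) (a : W), (⟨a, fun β => b β⟩ : Σ a : W, Iic a → Bool) ∈ S b' ↔ ∀ β ≤ a, b β = b' β :=
    fun b b' a => ⟨fun ⟨c, e⟩ β l => by
      obtain ⟨rfl, e⟩ := Sigma.mk.inj_iff.1 e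
      exact (congrFun (eq_of_heq e) ⟨β, l⟩).symm, fun h => ⟨a,
        congrArg (Sigma.mk a) (funext fun β => (h β β.2).symm)⟩⟩
  have ns : ∀ b b', b ≠ b' → ¬ S b ⊆ S b' := fun b b' ne h =>
    ne (funext fun a => (hS b b' a).1 (h ⟨a, rfl⟩) a le_rfl)
  haveI : Infinite (W → Bool) := infinite_iff.2
    (by simpa [W] using aleph0_le_continuum.trans m1.le)
  obtain ⟨q, hq⟩ := exists_infinite_fiber (f ∘ S) (by simpa [W] using m1)
  let x := Infinite.natEmbedding ((f ∘ S) ⁻¹' {q})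
  have x1 : ∀ n, f (S (x n)) = q := fun n => (x n).2
  have x2 : ∀ n m, n ≠ m → (x n).1 ≠ (x m).1 := fun n m ne e => ne (x.injective (Subtype.ext e))
  have key : ∀ i j, i ≠ 0 → j ≠ 0 → i ≠ j → {a | ∀ β ≤ a, (x 0).1 β = (x i).1 β} ⊆
      {a | ∀ β ≤ a, (x 0).1 β = (x j).1 β} → ∃ S₁ S₂ S₃,
      f S₁ = f S₃ ∧ f S₂ = f S₃ ∧ S₁ ∩ S₂ ⊆ S₃ ∧ ¬ S₁ ⊆ S₃ ∧ ¬ S₂ ⊆ S₃ := fun i j a b c h =>
    ⟨S (x 0), S (x i), S (x j), by rw [x1, x1], by rw [x1, x1], by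
      rintro _ ⟨⟨a, rfl⟩, k⟩
      exact (hS _ _ a).2 (h ((hS _ _ a).1 k)), ns _ _ (x2 _ _ b.symm), ns _ _ (x2 _ _ c)⟩
  have lo : ∀ i, IsLowerSet {a | ∀ β ≤ a, (x 0).1 β = (x i).1 β} := fun i a b l h β k =>
    h β (k.trans l)
  exact ((lo 1).total (lo 2)).elim (key 1 2 (by simp) (by simp) (by simp))
    (key 2 1 (by simp) (by simp) (by simp))

lemma code (Y : Set X) (hY : Y.Nonempty) (h : Y ≃ₜ (Y × Y)) : ∃ q : ℕ → (X × X) × X,
    (∀ A ∈ Y, ∀ B ∈ Y, ∃ C ∈ Y, ((A, B), C) ∈ closure (range q)) ∧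
    ∀ A B, ∀ C ∈ Y, ((A, B), C) ∈ closure (range q) → A ∈ Y ∧ B ∈ Y := by
  haveI := hY.to_subtype
  let φ : Y → (X × X) × X := fun C => (((h C).1.1, (h C).2.1), C.1)
  have c : Continuous φ := by fun_prop
  refine ⟨φ ∘ denseSeq Y, fun A hA B hB => ⟨_, (h.symm (⟨A, hA⟩, ⟨B, hB⟩)).2, ?_⟩,
    fun A B C hC k => ?_⟩
  · rw [range_comp]
    exact image_closure_subset_closure_image c
      ⟨h.symm (⟨A, hA⟩, ⟨B, hB⟩), denseRange_denseSeq _ _, by simp [φ]⟩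
  · obtain ⟨p, p1, p2⟩ := mem_closure_iff_seq_limit.1 k
    choose n hn using p1
    have a : Tendsto (fun i => denseSeq Y (n i)) atTop (𝓝 ⟨C, hC⟩) := by
      rw [tendsto_subtype_rng]
      exact ((continuous_snd.tendsto _).comp p2).congr fun i => by simp [← hn, φ]
    have := tendsto_nhds_unique p2 (((c.tendsto _).comp a).congr hn)
    simp only [φ, Prod.mk.injEq] at this
    exact ⟨this.1.1 ▸ (h _).1.2, this.1.2 ▸ (h _).2.2⟩

theorem result : ∃ F : Filter ℕ, F ≤ cofinite ∧ ∅ ∉ F ∧ ¬ IsMeagre (sp F) ∧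
    IsEmpty (pos F ≃ₜ (pos F × pos F)) := by
  classical
  obtain ⟨D, D1, D2⟩ := ad
  obtain ⟨K, hK, tr3⟩ := tri
  obtain ⟨j⟩ : Nonempty (Option K ↪ X) := (le_def _ _).1
    (by simpa using add_le_of_le aleph0_le_continuum hK (one_le_aleph0.trans aleph0_le_continuum))
  let U : ℕ → Ultrafilter ℕ := fun n => (hyperfilter ℕ).map (Nat.pair n)
  have hU : ∀ n, (U n : Filter ℕ) ≤ cofinite := fun n =>
    (map_mono hyperfilter_le_cofinite).trans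
      (show Injective (Nat.pair n) from fun _ _ e => (Nat.pair_eq_pair.1 e).2).tendsto_cofinite
  let G : Set K → Filter ℕ := fun S => cofinite ⊓ ⨅ ξ ∈ S, 𝓟 (D (j (some ξ)))ᶜ
  have G1 : ∀ S o, o ∉ some '' S → cofinite ⊓ 𝓟 (D (j o)) ≤ G S := fun S o ho =>
    le_inf inf_le_left (le_iInf₂ fun ξ hξ => le_principal_iff.2 (mem_inf_principal.2
      (mem_of_superset (D2 _ _ fun e => ho ⟨ξ, hξ, (j.injective e).symm⟩).compl_mem_cofinite
        fun n k a b => k ⟨a, b⟩)))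
  have G2 : ∀ y, (cofinite ⊓ 𝓟 (D y)).NeBot := fun y => cofinite_inf_principal_neBot_iff.2 (D1 y)
  have G3 : ∀ S₁ S₂ S₃, S₁ ∩ S₂ ⊆ S₃ → G S₃ ≤ G S₁ ⊔ G S₂ := fun S₁ S₂ S₃ h =>
    le_iff_ultrafilter.2 fun V hV => by
      have v := hV.trans inf_le_left
      have k : ∀ S, ¬ V ≤ G S → ∃ ξ ∈ S, D (j (some ξ)) ∈ V := fun S n => by
        by_contra hn
        push Not at hn
        exact n (le_inf v (le_iInf₂ fun ξ hξ => le_principal_iff.2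
          (Ultrafilter.compl_mem_iff_notMem.2 (hn ξ hξ))))
      by_contra hn
      obtain ⟨a, a1, a2⟩ := k S₁ fun l => hn (l.trans le_sup_left)
      obtain ⟨b, b1, b2⟩ := k S₂ fun l => hn (l.trans le_sup_right)
      by_cases e : a = b
      · subst e
        exact Ultrafilter.compl_mem_iff_notMem.1 (hV (mem_inf_of_right (mem_iInf_of_mem a
          (mem_iInf_of_mem (h ⟨a1, b1⟩) (mem_principal_self _))))) a2
      · exact Ultrafilter.compl_mem_iff_notMem.1 (v (D2 _ _ fun k => e (Option.some.inj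
          (j.injective k))).compl_mem_cofinite) (inter_mem a2 b2)
  let F : Set K → Filter ℕ := fun S => (G S).bind fun n => U n
  have mb : ∀ {S s}, s ∈ F S ↔ {n | s ∈ (U n : Filter ℕ)} ∈ G S := Iff.rfl
  have mp : ∀ {S x}, x ∈ pos (F S) ↔ (tr x)ᶜ ∉ F S := fun {S x} =>
    ⟨fun h k => by simpa using h _ k, fun h s hs => by
      by_contra k
      exact h (mem_of_superset hs fun n a b => k ⟨n, b, a⟩)⟩
  have F1 : ∀ S, ∅ ∉ F S := fun S e => by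
    obtain ⟨n, hn⟩ := (G2 _).nonempty_of_mem (G1 S none (by simp) (mb.1 e))
    exact (U n).empty_notMem hn
  by_contra hn
  have : ∀ S, Nonempty (pos (F S) ≃ₜ (pos (F S) × pos (F S))) := fun S => by
    by_contra k
    refine hn ⟨F S, fun s hs => mb.2 (univ_mem' fun n => hU n hs), F1 S,
      fun h => nonm U hU (h.mono fun x hx => (mb (s := tr x)).2 (univ_mem' fun n => hx n)),
      not_nonempty_iff.1 k⟩
  choose q q1 q2 using fun S => code (pos (F S)) ⟨fun _ => true, mp.2 (by simpa [tr] using F1 S)⟩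
    (this S).some
  obtain ⟨S₁, S₂, S₃, e1, e2, l, n1, n2⟩ := tr3 q
  obtain ⟨ξ, a, b⟩ := not_subset.1 n1
  obtain ⟨η, c, d⟩ := not_subset.1 n2
  let A : K → X := fun ξ k => decide (k.unpair.1 ∈ D (j (some ξ)))
  have hA : ∀ ξ S, A ξ ∈ pos (F S) ↔ ξ ∉ S := fun ξ S => by
    have : {n | (tr (A ξ))ᶜ ∈ (U n : Filter ℕ)} = (D (j (some ξ)))ᶜ := by
      ext n
      by_cases k : n ∈ D (j (some ξ)) <;> simp [U, tr, A, k, preimage, ← Ultrafilter.mem_coe]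
    rw [mp, mb, this]
    refine ⟨fun h k => h (mem_inf_of_right
      (mem_iInf_of_mem ξ (mem_iInf_of_mem k (mem_principal_self _)))), fun h k => ?_⟩
    obtain ⟨n, h1, h2⟩ := (G2 _).nonempty_of_mem (inter_mem (mem_inf_of_right
      (mem_principal_self _)) (G1 S (some ξ) (by simpa using h) k))
    exact h2 h1
  obtain ⟨C, C1, C2⟩ := q1 S₃ _ ((hA ξ _).2 b) _ ((hA η _).2 d)
  refine mp.1 C1 (mb.2 (G3 _ _ _ l ⟨mb.1 ?_, mb.1 ?_⟩)) <;> by_contra k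
  · exact (hA ξ _).1 (q2 S₁ _ _ C (mp.2 k) (e1 ▸ C2)).1 a
  · exact (hA η _).1 (q2 S₂ _ _ C (mp.2 k) (e2 ▸ C2)).2 c

end Pool.Agent.Results.MP_2ea626_lc.Yes
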